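import Pool.Agent.L5helper81.PC.Main

set_option autoImplicit false

/-!
# MP_d84bc5_an : the packing-covering constants of `ℓ₁ ⊕₂ ℓ₂`

`γ(ℓ₁ ⊕₂ Y) = γ*(ℓ₁ ⊕₂ Y) = 2/√3` for every separable real inner product space `Y ≠ 0`.  With
`Y = ℓ₂` this answers Q2 (`Y = ℝ` is Q1, settled in the starting file
`Results/MP_d84bc5_an/PackingCovering.lean`, which also contains the lower bound `2/√3` and the
scheme of the recursive construction used here).

Definitions (all from `PackingCovering.lean`): `L1`, `L2` are the real sequence spaces `ℓ₁`, `ℓ₂`;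
`Separated D` : `2 ≤ ‖d - d'‖` for distinct `d, d' ∈ D`; `DenseAt r D` : every point of the space has
distance at most `r` from some point of `D`; `gamma X`, `gammaStar X` are the infima of the `r` such
that some separated set, resp. some separated additive subgroup, is dense at `r`.

Upper bound.  A subgroup `D` is built recursively; if a point `x` of the dense sequence is not yet
covered, one generator `x + s eₖ + u` is added, `eₖ` a new coordinate of `ℓ₁`, `u ∈ Y`,
`s² + ‖u‖² = 4/3`, `s ≥ 1`.  The invariants are: for `0 ≠ g = (g₁, g₂) ∈ D`, `‖g₁‖ ≥ 1`, `‖g‖ ≥ 2`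
and `‖g₂‖² ≤ 3` if `‖g₁‖ < 2/√3`; and for three different elements the three distances of their
`ℓ₁`-parts to any point, the largest counted twice, add up to at least `3`.  By these at most two
elements obstruct the choice `u = 0`; for one of them `u` points away from it, for two of them `u` is
found from a minimax argument (intermediate values).
-/

open WithLp Pool.Agent.Results.MP_d84bc5_an.PackingCovering

namespace Pool.Agent.Results.MP_d84bc5_an.ExactConstants

/-- **Main theorem.** `γ(X₂) = γ*(X₂) = 2/√3` for `X₂ = ℓ₁ ⊕₂ ℓ₂`; more generally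
`γ(ℓ₁ ⊕₂ Y) = γ*(ℓ₁ ⊕₂ Y) = 2/√3` for every separable real inner product space `Y ≠ 0`, and one
2-separated additive subgroup of `ℓ₁ ⊕₂ Y` is `(2/√3 + ε)`-dense for all `ε > 0`. -/
theorem result :
    (gamma (WithLp 2 (L1 × L2)) = 2 / √3 ∧ gammaStar (WithLp 2 (L1 × L2)) = 2 / √3) ∧
    (∀ (Y : Type) [NormedAddCommGroup Y] [InnerProductSpace ℝ Y] [Nontrivial Y]
      [TopologicalSpace.SeparableSpace Y],
      gamma (WithLp 2 (L1 × Y)) = 2 / √3 ∧ gammaStar (WithLp 2 (L1 × Y)) = 2 / √3 ∧
      ∃ D : AddSubgroup (WithLp 2 (L1 × Y)), Separated (D : Set (WithLp 2 (L1 × Y))) ∧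
        ∀ ε > 0, DenseAt (2 / √3 + ε) (D : Set (WithLp 2 (L1 × Y)))) := by
  refine ⟨Pool.Agent.L5helper81.PC.value (Y := L2), ?_⟩
  intro Y _ _ _ _
  exact ⟨Pool.Agent.L5helper81.PC.value.1, Pool.Agent.L5helper81.PC.value.2,
    Pool.Agent.L5helper81.PC.upper⟩

end Pool.Agent.Results.MP_d84bc5_an.ExactConstants
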